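import Pool.Agent.H80.G2.Targets

/-!
# MP_323167_an, row STP: almost central symmetries which commute with a finite group

The average `T` of an almost central symmetry `s0` over the finite group is near `s0`,
commutes with the group, and its sign is the symmetry we want.
-/

set_option autoImplicit false

open scoped InnerProductSpace Topology
open Filter Finset Pool.Agent.H80.G2

namespace Pool.Agent.H52.G2

section av

variable {H : Type} [NormedAddCommGroup H] [InnerProductSpace ℂ H] [CompleteSpace H]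
  {ξ : ℕ → H} {N : VonNeumannAlgebra H} {G : Finset (H →L[ℂ] H)}

/-- the average of `s` over `G` -/
noncomputable def av (G : Finset (H →L[ℂ] H)) (s : H →L[ℂ] H) : H →L[ℂ] H :=
  ((G.card : ℂ)⁻¹) • ∑ g ∈ G, g * s * star g

theorem av_mem (hG : ∀ g ∈ G, Uni N g) {s : H →L[ℂ] H} (hs : s ∈ N) : av G s ∈ N := by
  refine smul_mem' N _ (sum_mem fun g hg => ?_)
  exact mul_mem (mul_mem (hG g hg).1 hs) (hG g hg).star.1

theorem star_av {s : H →L[ℂ] H} (hs : star s = s) : star (av G s) = av G s := by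
  unfold av
  rw [star_smul, star_sum]
  congr 1
  · rw [star_inv₀]
    congr 1
    exact Complex.conj_natCast _
  · refine Finset.sum_congr rfl fun g _ => ?_
    rw [star_mul, star_mul, star_star, hs, mul_assoc]

theorem norm_av_le (h1 : (1 : H →L[ℂ] H) ∈ G) (hG : ∀ g ∈ G, Uni N g) {s : H →L[ℂ] H}
    (hs : ‖s‖ ≤ 1) : ‖av G s‖ ≤ 1 := by
  have hc : 0 < (G.card : ℝ) := by exact_mod_cast Finset.card_pos.2 ⟨1, h1⟩
  unfold av
  rw [norm_smul, norm_inv, Complex.norm_natCast]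
  have h2 : ‖∑ g ∈ G, g * s * star g‖ ≤ (G.card : ℝ) := by
    refine (norm_sum_le _ _).trans ?_
    have h3 : ∑ g ∈ G, ‖g * s * star g‖ ≤ ∑ _g ∈ G, (1 : ℝ) :=
      Finset.sum_le_sum fun g hg => (norm_conj_le (hG g hg) s).trans hs
    refine h3.trans (le_of_eq ?_)
    simp
  calc (G.card : ℝ)⁻¹ * ‖∑ g ∈ G, g * s * star g‖ ≤ (G.card : ℝ)⁻¹ * (G.card : ℝ) := by
        gcongr
    _ = 1 := inv_mul_cancel₀ hc.ne'

theorem av_comm (hG : ∀ g ∈ G, Uni N g) (hm : ∀ g ∈ G, ∀ h ∈ G, g * h ∈ G)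
    (hst : ∀ g ∈ G, star g ∈ G) (s : H →L[ℂ] H) {g : H →L[ℂ] H} (hg : g ∈ G) :
    g * av G s = av G s * g := by
  have h1 : g * (∑ k ∈ G, k * s * star k) * star g = ∑ k ∈ G, k * s * star k := by
    rw [Finset.mul_sum, Finset.sum_mul]
    refine Finset.sum_nbij' (fun k => g * k) (fun k => star g * k) (fun k hk => hm g hg k hk)
      (fun k hk => hm _ (hst g hg) k hk) (fun k _ => ?_) (fun k _ => ?_) (fun k _ => ?_)
    · show star g * (g * k) = k
      rw [← mul_assoc, (hG g hg).2.1, one_mul]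
    · show g * (star g * k) = k
      rw [← mul_assoc, (hG g hg).2.2, one_mul]
    · show g * (k * s * star k) * star g = g * k * s * star (g * k)
      rw [star_mul]
      simp only [mul_assoc]
  have h2 : g * (∑ k ∈ G, k * s * star k) = (∑ k ∈ G, k * s * star k) * g := by
    conv_rhs => rw [← h1]
    rw [mul_assoc _ (star g) g, (hG g hg).2.1, mul_one]
  unfold av
  rw [mul_smul_comm, smul_mul_assoc, h2]

theorem n2_av_sub (hs : Summable fun n => ‖ξ n‖ ^ 2) (h1 : (1 : H →L[ℂ] H) ∈ G)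
    {s : H →L[ℂ] H} {r : ℝ} (hr : ∀ g ∈ G, n2 ξ (g * s * star g - s) ≤ r) :
    n2 ξ (av G s - s) ≤ r := by
  have hc : 0 < (G.card : ℝ) := by exact_mod_cast Finset.card_pos.2 ⟨1, h1⟩
  have hc' : (G.card : ℂ) ≠ 0 := by exact_mod_cast hc.ne'
  have h2 : av G s - s = ((G.card : ℂ)⁻¹) • ∑ g ∈ G, (g * s * star g - s) := by
    unfold av
    rw [Finset.sum_sub_distrib, smul_sub, Finset.sum_const, ← Nat.cast_smul_eq_nsmul ℂ,
      smul_smul, inv_mul_cancel₀ hc', one_smul]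
  rw [h2, n2_smul hs, norm_inv, Complex.norm_natCast]
  have h3 : n2 ξ (∑ g ∈ G, (g * s * star g - s)) ≤ (G.card : ℝ) * r := by
    refine (n2_sum hs _ _).trans ?_
    refine (Finset.sum_le_sum fun g hg => hr g hg).trans (le_of_eq ?_)
    rw [Finset.sum_const, nsmul_eq_mul]
  calc (G.card : ℝ)⁻¹ * n2 ξ (∑ g ∈ G, (g * s * star g - s))
      ≤ (G.card : ℝ)⁻¹ * ((G.card : ℝ) * r) := by gcongr
    _ = r := by rw [← mul_assoc, inv_mul_cancel₀ hc.ne', one_mul]

/-- the distance of `y` to its trace is at most the 2-norm of `y` -/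
theorem n2_sub_tr_le (h : HasSum (fun n => ‖ξ n‖ ^ 2) 1) (y : H →L[ℂ] H) :
    n2 ξ (y - tr ξ y • (1 : H →L[ℂ] H)) ≤ n2 ξ y := by
  have h1 := n2_sub_tr h y
  have h2 := n2_nonneg ξ y
  have h3 := n2_nonneg ξ (y - tr ξ y • (1 : H →L[ℂ] H))
  nlinarith [sq_nonneg ‖tr ξ y‖]

end av

/-- row STP -/
theorem pf_STP (hSGN : T_SGN) : T_STP := by
  classical
  intro H _ _ _ N ξ hT hA G hG h1 hm hst F hF δ hδ
  obtain ⟨R, hR1, hR⟩ : ∃ R : ℝ, 1 ≤ R ∧ ∀ x ∈ F, ‖x‖ ≤ R := by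
    refine ⟨1 + ∑ x ∈ F, ‖x‖, ?_, fun x hx => ?_⟩
    · have : 0 ≤ ∑ x ∈ F, ‖x‖ := Finset.sum_nonneg fun x _ => norm_nonneg x
      linarith
    · have : ‖x‖ ≤ ∑ x ∈ F, ‖x‖ :=
        Finset.single_le_sum (f := fun x => ‖x‖) (fun x _ => norm_nonneg x) hx
      linarith
  obtain ⟨d, hd0, hd1, hd2⟩ : ∃ d : ℝ, 0 < d ∧ d ≤ 1 / 240 ∧ d * (1 + 6 * R) < δ := by
    refine ⟨min (1 / 240) (δ / (2 * (1 + 6 * R))), by positivity, min_le_left _ _, ?_⟩
    have h2 : min (1 / 240) (δ / (2 * (1 + 6 * R))) ≤ δ / (2 * (1 + 6 * R)) := min_le_right _ _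
    have h3 : 0 < 1 + 6 * R := by linarith
    calc min (1 / 240) (δ / (2 * (1 + 6 * R))) * (1 + 6 * R)
        ≤ δ / (2 * (1 + 6 * R)) * (1 + 6 * R) := by gcongr
      _ = δ / 2 := by field_simp
      _ < δ := by linarith
  obtain ⟨s0, hs0, hcom, hfar⟩ := hA (F ∪ G) (fun x hx => by
    rcases Finset.mem_union.1 hx with h | h
    · exact hF x h
    · exact (hG x h).1) d hd0
  have hn0 : ‖s0‖ ≤ 1 := norm_of_uni hs0.uni
  set T := av G s0 with hTdef
  have hTN : T ∈ N := av_mem hG hs0.1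
  have hTs : star T = T := star_av hs0.2.1
  have hTn : ‖T‖ ≤ 1 := norm_av_le h1 hG hn0
  have hTd : n2 ξ (T - s0) ≤ d := by
    refine n2_av_sub hT.sum h1 fun g hg => ?_
    rw [n2_comm_uni hT (hG g hg) hs0.1, n2_sub_comm]
    exact (hcom g (Finset.mem_union_right _ hg)).le
  obtain ⟨s, hs, hsT, hsc⟩ := hSGN H N ξ hT T hTN hTs hTn
  have h2 : n2 ξ (1 - T * T) ≤ 2 * d := by
    have h3 : (1 : H →L[ℂ] H) - T * T = s0 * (s0 - T) + (s0 - T) * T := by
      rw [mul_sub, sub_mul, hs0.2.2]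
      abel
    have h4 : n2 ξ (s0 - T) ≤ d := by rw [n2_sub_comm]; exact hTd
    have h5 : n2 ξ (s0 * (s0 - T)) ≤ d := by
      refine (n2_mul_le hT.sum _ _).trans ?_
      nlinarith [n2_nonneg ξ (s0 - T)]
    have h6 : n2 ξ ((s0 - T) * T) ≤ d := by
      refine (n2_mul_le' hT (sub_mem hs0.1 hTN) hTN).trans ?_
      nlinarith [n2_nonneg ξ (s0 - T)]
    rw [h3]
    refine (n2_add hT.sum _ _).trans ?_
    linarith
  have h3 : n2 ξ (s - s0) ≤ 3 * d := by
    refine (n2_sub_le hT.sum s T s0).trans ?_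
    linarith
  refine ⟨s, hs, fun g hg => ?_, fun x hx => ?_, ?_⟩
  · exact hsc g (av_comm hG hm hst s0 hg) (av_comm hG hm hst s0 (hst g hg))
  · have hxR := hR x hx
    have h4 : s * x - x * s = (s - s0) * x + (s0 * x - x * s0) - x * (s - s0) := by
      rw [sub_mul, mul_sub]
      abel
    have h5 : n2 ξ ((s - s0) * x) ≤ 3 * d * R := by
      refine (n2_mul_le' hT (sub_mem hs.1 hs0.1) (hF x hx)).trans ?_
      gcongr
    have h6 : n2 ξ (x * (s - s0)) ≤ R * (3 * d) := by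
      refine (n2_mul_le hT.sum _ _).trans ?_
      exact mul_le_mul hxR h3 (n2_nonneg _ _) (by linarith)
    have h7 := hcom x (Finset.mem_union_left _ hx)
    have h8 := n2_sub hT.sum ((s - s0) * x + (s0 * x - x * s0)) (x * (s - s0))
    have h9 := n2_add hT.sum ((s - s0) * x) (s0 * x - x * s0)
    rw [h4]
    nlinarith
  · have h4 : s0 - tr ξ s0 • (1 : H →L[ℂ] H) = (s - tr ξ s • (1 : H →L[ℂ] H)) -
        ((s - s0) - tr ξ (s - s0) • (1 : H →L[ℂ] H)) := by
      rw [tr_sub hT.sum]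
      module
    have h5 := n2_sub hT.sum (s - tr ξ s • (1 : H →L[ℂ] H))
      ((s - s0) - tr ξ (s - s0) • (1 : H →L[ℂ] H))
    rw [← h4] at h5
    have h6 := n2_sub_tr_le hT.one (s - s0)
    linarith

end Pool.Agent.H52.G2
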